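import Pool.Agent.Lib.MP_688fd0_co.SQ4.Iface
import Pool.Agent.Lib.MP_688fd0_co.SQ4.E.RealK
import Pool.Agent.Lib.MP_688fd0_co.SQ4.E.Gauge
import Pool.Agent.Lib.MP_688fd0_co.SQ4.H98.FamD
import Pool.Agent.Lib.MP_688fd0_co.SQ4.H98.WordsC
import Pool.Agent.Lib.MP_688fd0_co.SQ4.H98.ShiftC
import Pool.Agent.Lib.MP_688fd0_co.SQ3.V.LC0

/-!
Type C1, WORLD: the split into rows (helper62). Plan P1 (a shorter version of chapter V, finding 4242).

`w = a b⁻¹`, `rf v` = the vertex of the strand `v` in `ker eps` (`v` or `v a⁻¹`), `σ s = s a⁻¹`.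
Families of rungs on a finite set of strands `g : S → Q` (closed under `D`, levels do not meet):
* inner rungs: `rf v' = rf v q`, `q ∈ SI` (rotations at all levels, conjugated by vertical blocks);
* cross rungs of a reflection `s`: `rf v' w ^ n = rf v m (w ^ i σ s w ^ (-i))`.
`FamB`: a family with its words and volumes. `FamX`: with the cross rungs of `s` (two sheets, or one sheet when `s` is near and
effective). `Pth`: the big puzzle of one path of the tree.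

No flips imply (rows FLIPA, FLIPB, STK): exact volumes on the components; `chi` constant if `w` is a translation; no bad vertical
letters. Then (EQX, ALG) `KapV` is false.
-/

set_option autoImplicit false

namespace Pool.Agent.Lib.MP_688fd0_co.SQ4.CV

open Pool.Agent.Lib.MP_688fd0_co.OSF Pool.Agent.Lib.MP_688fd0_co.SQ2 Pool.Agent.Lib.MP_688fd0_co.SQ3
open Pool.Agent.Lib.MP_688fd0_co.SQ4
open SQ2.V (Puz)
open SQ2.V.Puz (St)

/-! ### Words -/

section words

variable {Q : Type} [Group Q] (B : Lb.{0, 0} Q) (a b : B.L) (eps : Q →* ℤˣ) (D : Subgroup Q) (z : Q) (k : ℕ)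

/-- `w`. -/
def wC : Q := B.q a * (B.q b)⁻¹

/-- `σ s`. -/
def sg (s : B.L) : Q := B.q s * (B.q a)⁻¹

/-- The elements of the inner rungs. -/
def SI : Set Q :=
  {q | ∃ m ∈ mZ B a b D z k, ∃ (n : ℕ) (t : B.L), eps (B.q t) = 1 ∧
    q = (m * uC (B.q a) (B.q b) n) * B.q t * (m * uC (B.q a) (B.q b) n)⁻¹}

/-- The group of the inner rungs. -/
def EI : Subgroup Q := Subgroup.closure (SI B a b eps D z k)

/-- Effective reflections: all far ones, and the near ones which are not in `a EI`, `b EI`. -/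
def EffL (s : B.L) : Prop :=
  eps (B.q s) = -1 ∧ B.q s * (B.q a)⁻¹ ∉ EI B a b eps D z k ∧ B.q s * (B.q b)⁻¹ ∉ EI B a b eps D z k

/-- The move of a pair of vertical letters. -/
def tp (p : B.L × B.L) : Q := B.q p.1 * (B.q p.2)⁻¹ * (wC B a b)⁻¹

/-- A pair of vertical letters, one of them plain. -/
def Nr1 (p : B.L × B.L) : Prop := NrP a b D p ∧ (p.1 = a ∨ p.2 = b)

variable {B}

/-- The word of an inner rung: a vertical word, `n` plain letters, the rotation `t`, and back. -/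
def IW (U : Up B) (L : List (B.L × B.L)) (n : ℕ) (t : B.L) : List B.L :=
  flat L ++ U.str n 1 ++ t :: (B.rev (U.str n 1) ++ B.rev (flat L))

/-- The word of a cross rung: `2 i` plain letters, the reflection `s`, down `2 j + 1` plain letters. -/
def CW (U : Up B) (i j : ℕ) (s : B.L) : List B.L := U.str (2 * i) 1 ++ s :: B.rev (U.str (2 * j + 1) 1)

/-- The vertical letters are good: a move with `chi = 1` is trivial. -/
def GoodL {F : Type} [CommRing F] (V : Vd B F) : Prop :=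
  ∀ p, Nr1 B a b D p → V.chi (tp B a b p) = 1 → V.vol 1 (flat [p]) = V.vol 1 (flat [(a, b)])

end words

/-! ### Families -/

section fam

variable {S : Type} [Fintype S] [DecidableEq S] {Q : Type} [Group Q] [DecidableEq Q] {B : Lb.{0, 0} Q} {a b : B.L}
  {eps : Q →* ℤˣ} {D : Subgroup Q} {z : Q} {k : ℕ}

/-- A family on the domain `Y`; `In`: the inner rungs; `wd r`: the word from `rf (x r)` to `rf (y r)`. -/
structure FamB (H : HypC B a b eps D z k) (g : S → Q) (inj : Function.Injective g) {R : Type} [Fintype R]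
    (X : ClsW H.up g inj (2 * k) R) (Y : S → Prop) (wd : R → List B.L) (In : R → Prop) (h : ℕ) : Prop where
  xY : ∀ r, Y (X.x r)
  yY : ∀ r, Y (X.y r)
  fin : ∀ r, B.fin (rfC eps (B.q a) (g (X.x r))) (wd r) = rfC eps (B.q a) (g (X.y r))
  clo : ∀ A : S → Prop, (∀ r, A (X.x r) ↔ A (X.y r)) → X.Clo A
  tin : ∀ r, In (X.tau r) ↔ In r
  /-- inner rungs join strands of one sheet -/
  inner : ∀ r, In r → Sh D (g (X.x r)) (g (X.y r)) ∧
    ∃ q ∈ SI B a b eps D z k, rfC eps (B.q a) (g (X.y r)) = rfC eps (B.q a) (g (X.x r)) * q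
  inn : ∀ v, Y v → ∀ q ∈ SI B a b eps D z k, ∃ r, In r ∧ X.x r = v ∧
    rfC eps (B.q a) (g (X.y r)) = rfC eps (B.q a) (g v) * q
  /-- plain positions -/
  inn0 : ∀ v, Y v → ∀ t, eps (B.q t) = 1 → ∀ n < 2 * k, ∃ r, In r ∧ X.x r = v ∧ wd r = IW H.up [] n t
  /-- positions conjugated by one letter -/
  innL : ∀ v, Y v → ∀ t, eps (B.q t) = 1 → ∀ p, Nr1 B a b D p → ∃ r, In r ∧ X.x r = v ∧
    wd r = IW H.up (p :: List.replicate (k - 1) (a, b)) 0 t
  /-- weights (inner rungs only) with constant sum at every strand -/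
  wt : ∃ (m : ℕ) (wt : R → ℕ), 0 < m ∧ m ≤ 4 * k ∧ (∀ r, wt r ≠ 0 → In r) ∧
    ∀ v, Y v → (∑ r, if v = X.x r ∨ v = X.y r then wt r else 0) = m
  hle : ∀ r, X.H r ≤ h
  vol : ∀ {F : Type} [Field F] (V : Vd B F) (u u' o : F), V.chi z = 1 →
    (∀ x, (evA V eps u u').e x (H.up.up x) = o) → GoodL a b D V →
      X.Cu (evA V eps u u') (fun r => (evA V eps u u').vol (rfC eps (B.q a) (g (X.x r))) (wd r) +
        o * ((eeC eps (g (X.y r)) : F) - (eeC eps (g (X.x r)) : F))) ∧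
      ∀ A : S → Prop, (∀ r, A (X.x r) ↔ A (X.y r)) → ∀ r, A (X.x r) → ∀ s, ¬ A s →
        (evA V eps u u').vol ((H.up.U ^ X.lev r) (g s)) ((X.W r).path ((H.up.U ^ X.lev r) (g s))) =
          (X.H r : F) * o

/-- Cross rungs of the reflection `s` from `Y₀` to `Y₁`. -/
def Crs (_H : HypC B a b eps D z k) (g : S → Q) (s : B.L) (n : ℤ) (M : Set Q) (Y₀ Y₁ : S → Prop) (v v' : S) : Prop :=
  Y₀ v ∧ Y₁ v' ∧ ∃ (i : ℤ) (m : Q), m ∈ M ∧ rfC eps (B.q a) (g v') * wC B a b ^ n =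
    rfC eps (B.q a) (g v) * m * (wC B a b ^ i * sg B a s * wC B a b ^ (-i))

/-- A family with cross rungs. -/
structure FamX (H : HypC B a b eps D z k) (g : S → Q) (inj : Function.Injective g) {R : Type} [Fintype R]
    (X : ClsW H.up g inj (2 * k) R) (s : B.L) (n : ℤ) (M : Set Q) (Y₀ Y₁ : S → Prop) (wd : R → List B.L)
    (In : R → Prop) (h : ℕ) : Prop extends FamB H g inj X (fun v => Y₀ v ∨ Y₁ v) wd In h where
  cross : ∀ r, ¬ In r → Crs H g s n M Y₀ Y₁ (X.x r) (X.y r) ∨ Crs H g s n M Y₀ Y₁ (X.y r) (X.x r)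
  crs : ∀ v v', Crs H g s n M Y₀ Y₁ v v' → ∃ r, ¬ In r ∧ ((X.x r = v ∧ X.y r = v') ∨ (X.x r = v' ∧ X.y r = v))
  /-- plain positions at two consecutive levels -/
  crs0 : ∃ i j : ℕ, (j : ℤ) - i = n ∧ ∀ v, Y₀ v → ∀ e < 2, ∃ r, ¬ In r ∧
    ((X.x r = v ∧ wd r = CW H.up (i + e) (j + e) s) ∨ (X.y r = v ∧ wd r = B.rev (CW H.up (i + e) (j + e) s)))
  /-- at every strand the same number of inner and of cross rungs -/
  deg : ∃ d : ℕ, 0 < d ∧ ∀ v, Y₀ v ∨ Y₁ v →
    {r | In r ∧ (v = X.x r ∨ v = X.y r)}.ncard = d ∧ {r | ¬ In r ∧ (v = X.x r ∨ v = X.y r)}.ncard = d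
  par : ∀ r r', In r → ¬ In r' →
    ¬ ((X.x r = X.x r' ∧ X.y r = X.y r') ∨ (X.x r = X.y r' ∧ X.y r = X.x r'))

/-- The levels of the strands do not meet. -/
def Dis (H : HypC B a b eps D z k) (g : S → Q) (W : ℕ) : Prop :=
  ∀ v v' : S, ∀ t : ℤ, |t| ≤ W → (H.up.U ^ t) (g v) = g v' → t = 0

end fam

/-- The number of rungs of a family. -/
def rB (ρ k : ℕ) : ℕ := (ρ + k + 2) ^ 8

/-- The height of the gadgets (`σ` strands, `|n| ≤ N`). -/
def hB (σ k N : ℕ) : ℕ := 4 * k * (σ + 1) ^ 2 + 20 * (k + 1) ^ 5 + 8 * N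

/-- FAM1: the family of a far reflection `s` on the sheets of `v₀`, `y₀`. -/
def Fam1S : Prop :=
  ∀ (S : Type) [Fintype S] [DecidableEq S] (Q : Type) [Group Q] [DecidableEq Q] (B : Lb.{0, 0} Q) (a b : B.L)
    (eps : Q →* ℤˣ) (D : Subgroup Q) (z : Q) (k : ℕ) (H : HypC B a b eps D z k) (g : S → Q)
    (inj : Function.Injective g) (W N : ℕ), DCl D g → Dis H g W → 8 * k + 4 * N + 8 ≤ W →
    ∀ (s : B.L) (n : ℤ) (v₀ y₀ : S), |n| ≤ N → eps (B.q s) = -1 → ¬ Sh D (g v₀) (g y₀) →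
      (rfC eps (B.q a) (g v₀) * sg B a s)⁻¹ * (rfC eps (B.q a) (g y₀) * wC B a b ^ n) ∈ D →
      ∃ (R : Type) (_ : Fintype R) (X : ClsW H.up g inj (2 * k) R) (wd : R → List B.L) (In : R → Prop),
        Fintype.card R ≤ rB (Nat.card B.L) k ∧
        FamX H g inj X s n (mZ B a b D z k : Set Q) (fun v => Sh D (g v₀) (g v)) (fun v => Sh D (g y₀) (g v)) wd In
          (hB (Fintype.card S) k N)

/-- FAM2: the family of a near effective reflection `s` on the sheet of `v₀`. -/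
def Fam2S : Prop :=
  ∀ (S : Type) [Fintype S] [DecidableEq S] (Q : Type) [Group Q] [DecidableEq Q] (B : Lb.{0, 0} Q) (a b : B.L)
    (eps : Q →* ℤˣ) (D : Subgroup Q) (z : Q) (k : ℕ) (H : HypC B a b eps D z k) (g : S → Q)
    (inj : Function.Injective g) (W N : ℕ), DCl D g → Dis H g W → 8 * k + 4 * N + 8 ≤ W →
    ∀ (s : B.L) (n : ℤ) (v₀ : S), n = 0 ∨ n = -1 → eps (B.q s) = -1 →
      sg B a s * (wC B a b ^ n)⁻¹ ∈ D → sg B a s * (wC B a b ^ n)⁻¹ ∉ EI B a b eps D z k →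
      ∃ (R : Type) (_ : Fintype R) (X : ClsW H.up g inj (2 * k) R) (wd : R → List B.L) (In : R → Prop),
        Fintype.card R ≤ rB (Nat.card B.L) k ∧
        FamX H g inj X s n {1} (fun v => Sh D (g v₀) (g v)) (fun v => Sh D (g v₀) (g v)) wd In
          (hB (Fintype.card S) k N)

/-! ### The puzzle of one path -/

section pth

variable {Q : Type} [Group Q] [DecidableEq Q] {B : Lb.{0, 0} Q} {a b : B.L}
  {eps : Q →* ℤˣ} {D : Subgroup Q} {z : Q} {k : ℕ}

/-- The families of one path, the rungs `f`, `g` at the strand `l₀`, a closed class `Kb` of caps. -/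
structure Pth (H : HypC B a b eps D z k) (F : Finset Q) where
  C : Type
  Rc : C → Type
  fC : Fintype C
  fR : ∀ c, Fintype (Rc c)
  X : ∀ c, ClsW H.up (fun v : {v // v ∈ F} => (v : Q)) Subtype.val_injective (2 * k) (Rc c)
  Y : C → {v // v ∈ F} → Prop
  wd : ∀ c, Rc c → List B.L
  In : ∀ c, Rc c → Prop
  f : Σ c, Rc c
  g : Σ c, Rc c
  l₀ : {v // v ∈ F}
  Kb : (Σ c, Rc c) → Prop

attribute [instance] Pth.fC Pth.fR

variable {H : HypC B a b eps D z k} {F : Finset Q}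

/-- The base windows of all families. -/
def Pth.fw (T : Pth H F) : FamW {v // v ∈ F} (Σ c, T.Rc c) H.up (z ^ k) :=
  FamW.ofCls (Nat.mul_pos Nat.two_pos H.kpos) (perC H) T.X

/-- The puzzle. -/
noncomputable def Pth.P (T : Pth H F) : Puz {v // v ∈ F} (Σ c, T.Rc c) := T.fw.puz

/-- The start level. -/
def Pth.t₀ (T : Pth H F) : ℕ := (T.X T.f.1).lev T.f.2

/-- The rungs of the families `J` over `A`. -/
def Pth.rg (T : Pth H F) (J : T.C → Prop) (A : {v // v ∈ F} → Prop) (r : Σ c, T.Rc c) : Prop :=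
  J r.1 ∧ A ((T.X r.1).x r.2)

/-- `v` and `v'` are joined by a rung of a family in `J`. -/
def Pth.Jn (T : Pth H F) (J : T.C → Prop) (v v' : {v // v ∈ F}) : Prop :=
  ∃ c, J c ∧ ∃ r, ((T.X c).x r = v ∧ (T.X c).y r = v') ∨ ((T.X c).x r = v' ∧ (T.X c).y r = v)

/-- `A` is the component of `v₀`. -/
def Pth.IsComp (T : Pth H F) (J : T.C → Prop) (v₀ : {v // v ∈ F}) (A : {v // v ∈ F} → Prop) : Prop :=
  ∀ v, A v ↔ Relation.ReflTransGen (T.Jn J) v₀ v

/-- The conditions on the puzzle of a path with centre `x` and leaves `s₁`, `s₂`. -/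
structure Pth.Ok (T : Pth H F) (x s₁ s₂ : Q) (r h : ℕ) : Prop where
  fam : ∀ c, FamB H _ _ (T.X c) (T.Y c) (T.wd c) (T.In c) h
  card : Fintype.card (Σ c, T.Rc c) ≤ r
  adj : T.P.Adj T.g T.f T.l₀
  hx : (T.l₀ : Q) = x
  h₁ : (T.P.oth T.f T.l₀ : Q) = s₁
  h₂ : (T.P.oth T.g T.l₀ : Q) = s₂
  ret : T.P.RetK T.Kb
  kg : T.Kb T.g

/-- A reachable state with cap in `Cc` and nonzero total weight on `A`. -/
def Strt {S R : Type} [Fintype S] [DecidableEq S] (P : Puz S R) (f : R) (A : S → Prop) (Cc : R → Prop) {F : Type}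
    [CommRing F] (d : S → F) : Prop :=
  ∃ s : St S R (P.TokOf f), P.WReach (P.st₁ f) s ∧ Cc s.1 ∧ Function.Injective s.2 ∧
    (∀ L, (∃ t, s.2 t = L) ↔ ¬ P.On s.1 L) ∧ ∀ _ : DecidablePred A, (∑ t, if A (s.2 t) then d t else 0) ≠ 0

/-- No two versions of a flat window of height at most `Λ` have different volumes. -/
def NoFl (H : HypC B a b eps D z k) (F : Finset Q) (t₀ : ℕ) (x s₁ s₂ : Q) (Λ : ℕ) {R : Type} [CommRing R]
    (V : Vd B R) (w : Q → R) : Prop :=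
  ∀ (X X' : TW B) (n : ℕ), n ≤ Λ → FWin H.up (2 * k) F t₀ x s₁ s₂ X n →
    Ver H.up X X' n ((H.up.U ^ t₀) s₂) → dvolw V w X X' = 0

/-- The bound for the windows and for the flips. -/
noncomputable def lamV (σ r k h : ℕ) : ℕ := 6 * ((r + 1) * (σ + 1) ^ σ + 1) * (2 * k + h) + 2 * k * k

/-- All effective joins of sheets inside `F` have their family. -/
def Pth.Full (T : Pth H F) (N h : ℕ) : Prop :=
  ∀ (v y : {v // v ∈ F}) (s : B.L) (n : ℤ), |n| ≤ N → EffL B a b eps D z k s →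
    (rfC eps (B.q a) v * sg B a s)⁻¹ * (rfC eps (B.q a) y * wC B a b ^ n) ∈ D →
    ∃ (c : T.C) (M : Set Q), (∀ u : {v // v ∈ F}, T.Y c u ↔ (Sh D (v : Q) (u : Q) ∨ Sh D (y : Q) (u : Q))) ∧
      FamX H _ _ (T.X c) s n M (fun u => Sh D (v : Q) (u : Q)) (fun u => Sh D (y : Q) (u : Q)) (T.wd c) (T.In c) h

end pth

end Pool.Agent.Lib.MP_688fd0_co.SQ4.CV
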