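import Pool.Agent.Lib.MP_688fd0_co.SQ3.Iface

/-!
Board of type C1 (non bipartite Cayley graphs; papers 4216, 4223 and the chair's message 44646). Statements of the rows.

`G` is a group, `N` cyclic normal, `P` a large prime of `|N|` inverted by `eps`, no element of `A` has order divisible
by `P`, `A ∩ N = 1`, `A` contains a rotation `r ≠ 1` (`eps r = 1`). `a`, `b ∈ A` are two reflections with different `P`-heights, `w = a b⁻¹`.
`C₁ = N ∩ N₁`, `N₁` = the normal closure of the rotations of `A` and of the `[g, w]`, `g ∈ ker eps` (helper62). `Q = G / C₁`,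
`D` is normal, `|D|` divides `k`, every rotation of `A` lies in `D` and is not `1`, `w ∈ z D`, `z` commutes with
`Q₊ = ker eps`.

`U x = x a` on `Q₊` and `U x = x b⁻¹` outside. The lines are the orbits of `U`; `U ^ 2 x ∈ z x D`,
`U ^ (2 k) x = z ^ k x`.
-/

set_option autoImplicit false

namespace Pool.Agent.Lib.MP_688fd0_co.SQ4

open Pool.Agent.Lib.MP_688fd0_co.OSF Pool.Agent.Lib.MP_688fd0_co.SQ2 Pool.Agent.Lib.MP_688fd0_co.SQ3

universe u v w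

/-! ### General lines -/

section

variable {Q : Type u} [Group Q] {B : Lb.{u, v} Q}

/-- The line of `x`. -/
def lnU (U : Up B) (x : Q) : Quotient (Equiv.Perm.SameCycle.setoid U.U) := Quotient.mk _ x

/-- No vertex `x s` lies in the sheet of `U ^ j x`, `2 ≤ |j| ≤ W`. -/
def SinkU (U : Up B) (D : Subgroup Q) (W : ℕ) : Prop :=
  ∀ (x : Q) (s : B.L) (j : ℤ), 2 ≤ |j| → |j| ≤ W → ((U.U ^ j) x)⁻¹ * (x * B.q s) ∉ D

/-- No path of length at most eight leads from `x` into the sheet of `U ^ j x`, `c < |j| ≤ W`. -/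
def SepU (U : Up B) (D : Subgroup Q) (c W : ℕ) : Prop :=
  ∀ (x : Q) (l : List B.L) (j : ℤ), l.length ≤ 8 → (c : ℤ) < |j| → |j| ≤ W → ((U.U ^ j) x)⁻¹ * B.fin x l ∉ D

/-- The levels do not meet. -/
def LevU (U : Up B) (D : Subgroup Q) (W : ℕ) : Prop := ∀ (x : Q) (j : ℤ), j ≠ 0 → |j| ≤ W → ((U.U ^ j) x)⁻¹ * x ∉ D

/-- Paths of length two in the graph of the lines: centre `x i`, leaves `s₁ i`, `s₂ i` (strands of the frontier `F i`),
with flat windows of height at most `Λ` starting at the level `t₀ i`. Everything that HEART needs, except the flips. -/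
structure World (U : Up B) [DecidableEq Q] (K W M M' Λ : ℕ) (d cl : Q → Bool) {N : ℕ} (x s₁ s₂ : Fin N → Q)
    (F : Fin N → Finset Q) (t₀ : Fin N → ℕ) (rk : Fin N → ℕ) : Prop where
  pos : 0 < N
  d_line : ∀ y, d (U.U y) = d y
  c_line : ∀ y, cl (U.U y) = cl y
  d₁ : ∀ i, d (s₁ i) = !d (x i)
  d₂ : ∀ i, d (s₂ i) = !d (x i)
  tree : TreeK (lnU U) cl x s₁ s₂ rk
  disj : ∀ i, ∀ s ∈ F i, ∀ t : ℤ, |t| ≤ W → (U.U ^ t) s ∈ F i → t = 0
  fx : ∀ i, x i ∈ F i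
  f₁ : ∀ i, s₁ i ∈ F i
  f₂ : ∀ i, s₂ i ∈ F i
  fcard : ∀ i, (F i).card ≤ M
  near : ∀ i, ∃ S : Finset (Fin N), S.card ≤ M' ∧ ∀ i', i' ∉ S → ∀ y ∈ F i, ∀ y' ∈ F i', ∀ l l' : ℤ,
    (U.U ^ l) y ≠ (U.U ^ l') y'
  t_le : ∀ i, t₀ i ≤ Λ
  win : ∀ i, ∃ (X : TW B) (n : ℕ), n ≤ Λ ∧ FWin U K (F i) (t₀ i) (x i) (s₁ i) (s₂ i) X n

/-- Two versions of a window with different volumes, for the class `γ`. -/
def FlipAt (U : Up B) [DecidableEq Q] (K Λ : ℕ) (d cl : Q → Bool) {N : ℕ} (x s₁ s₂ : Fin N → Q)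
    (F : Fin N → Finset Q) (t₀ : Fin N → ℕ) {R : Type w} [CommRing R] (V : Vd B R) (γ : Bool) : Prop :=
  ∃ (i : Fin N) (X X' : TW B) (n : ℕ), n ≤ Λ ∧ FWin U K (F i) (t₀ i) (x i) (s₁ i) (s₂ i) X n ∧
    Ver U X X' n ((U.U ^ t₀ i) (s₂ i)) ∧ dvolw V (wcl cl d γ) X X' ≠ 0

end

/-- HEART for any `Up` (`SQ3/H23/Heart.lean` with `U ^ K x = ζ x`). -/
def HeartUS : Prop :=
  ∀ (Q : Type) [Group Q] [Fintype Q] [DecidableEq Q] (B : Lb.{0, 0} Q) (_ : Finite B.L) (U : Up B) (K : ℕ) (ζ : Q),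
    0 < K → (∀ x, (U.U ^ K) x = ζ * x) → (∀ x, U.up (ζ * x) = U.up x) →
    ∀ (W M M' Λ : ℕ) (d cl : Q → Bool) (N : ℕ) (x s₁ s₂ : Fin N → Q) (F : Fin N → Finset Q) (t₀ rk : Fin N → ℕ),
      World U K W M M' Λ d cl x s₁ s₂ F t₀ rk →
      ∀ (m : ℕ) (V : Vd B (ZMod m)), Odd m → V.chi ζ = 1 → (∀ p ∈ m.primeFactors, 2 * m.primeFactors.card < p) →
        (∀ p, ∀ hp : p ∈ m.primeFactors, ∀ γ : Bool, (∃ y, cl y = γ) →
          FlipAt U K Λ d cl x s₁ s₂ F t₀ (V.map (red (Nat.dvd_of_mem_primeFactors hp))) γ) →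
        (2 * m.primeFactors.card) ^ 2 * Λ + Λ + 1 ≤ W → M' * (M * W) ^ 2 < orderOf ζ →
        ∃ T : TourS B Bool, ∀ γ : Bool, (∃ x, T.cls x = γ) → IsUnit (T.vol V γ)

/-! ### Type C1 -/

section

variable {Q : Type u} [Group Q] (B : Lb.{u, v} Q) (a b : B.L) (eps : Q →* ℤˣ)

/-- `up x` is `a` on the kernel of `eps` and the inverse of `b` outside. -/
def upC (ha : eps (B.q a) = -1) (hb : eps (B.q b) = -1) : Up B where
  up := fun x => if eps x = 1 then a else B.inv b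
  U :=
    { toFun := fun x => if eps x = 1 then x * B.q a else x * (B.q b)⁻¹
      invFun := fun x => if eps x = 1 then x * B.q b else x * (B.q a)⁻¹
      left_inv := fun x => by
        dsimp only
        rcases Int.units_eq_one_or (eps x) with h | h
        · have h1 : eps (x * B.q a) ≠ 1 := by rw [map_mul, h, ha]; decide
          rw [if_pos h, if_neg h1, mul_inv_cancel_right]
        · have h0 : eps x ≠ 1 := by rw [h]; decide
          have h1 : eps (x * (B.q b)⁻¹) = 1 := by rw [map_mul, map_inv, h, hb]; decide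
          rw [if_neg h0, if_pos h1, inv_mul_cancel_right]
      right_inv := fun x => by
        dsimp only
        rcases Int.units_eq_one_or (eps x) with h | h
        · have h1 : eps (x * B.q b) ≠ 1 := by rw [map_mul, h, hb]; decide
          rw [if_pos h, if_neg h1, mul_inv_cancel_right]
        · have h0 : eps x ≠ 1 := by rw [h]; decide
          have h1 : eps (x * (B.q a)⁻¹) = 1 := by rw [map_mul, map_inv, h, ha]; decide
          rw [if_neg h0, if_pos h1, inv_mul_cancel_right] }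
  hU := fun x => by
    show (if eps x = 1 then x * B.q a else x * (B.q b)⁻¹) = x * B.q (if eps x = 1 then a else B.inv b)
    split_ifs
    · rfl
    · rw [B.q_inv]

end

/-- The common hypotheses at the level of the quotient. -/
structure HypC {Q : Type} [Group Q] (B : Lb.{0, 0} Q) (a b : B.L) (eps : Q →* ℤˣ) (D : Subgroup Q) (z : Q)
    (k : ℕ) : Prop where
  fin : Finite Q
  finL : Finite B.L
  gen : Subgroup.closure (Set.range B.q) = ⊤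
  kpos : 0 < k
  nD : D.Normal
  leD : D ≤ eps.ker
  card : Nat.card D ∣ k
  ea : eps (B.q a) = -1
  eb : eps (B.q b) = -1
  /-- all rotations are near -/
  near : ∀ s : B.L, eps (B.q s) = 1 → B.q s ∈ D
  rot : ∃ s : B.L, eps (B.q s) = 1
  cen : ∀ x : Q, eps x = 1 → x * z = z * x
  cop : (orderOf z).Coprime k
  mem : z⁻¹ * (B.q a * (B.q b)⁻¹) ∈ D

/-- The lines. -/
def HypC.up {Q : Type} [Group Q] {B : Lb.{0, 0} Q} {a b : B.L} {eps : Q →* ℤˣ} {D : Subgroup Q} {z : Q} {k : ℕ}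
    (H : HypC B a b eps D z k) : Up B := upC B a b eps H.ea H.eb

/-- The commutator of `w = a b⁻¹` and `s a⁻¹` in the affine group: `(chi w - 1) n (s a⁻¹) - (chi (s a⁻¹) - 1) n w`. -/
def kapW {Q : Type u} [Group Q] {B : Lb.{u, v} Q} {R : Type w} [CommRing R] (V : Vd B R) (a b s : B.L) : R :=
  (V.chi (B.q a * (B.q b)⁻¹) - 1) * (V.n s - V.chi (B.q s * (B.q a)⁻¹) * V.n a) -
    (V.chi (B.q s * (B.q a)⁻¹) - 1) * (V.n a - V.chi (B.q a * (B.q b)⁻¹) * V.n b)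

/-- The condition on the voltages at a prime: some rotation has `chi ≠ 1` and the voltages are not those of a complement,
or some rotation has `chi = 1` and a voltage, or `a b⁻¹` and some `s a⁻¹` do not commute. -/
def KapV {Q : Type u} [Group Q] {B : Lb.{u, v} Q} {R : Type w} [CommRing R] (V : Vd B R) (a b : B.L)
    (eps : Q →* ℤˣ) : Prop :=
  ((∃ t : B.L, eps (B.q t) = 1 ∧ V.chi (B.q t) ≠ 1) ∧ ∃ s t, V.kap s t ≠ 0) ∨
    (∃ t : B.L, eps (B.q t) = 1 ∧ V.chi (B.q t) = 1 ∧ V.n t ≠ 0) ∨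
      ∃ s : B.L, eps (B.q s) = -1 ∧ kapW V a b s ≠ 0

/-- A bound for the heights of all windows (`σ` = number of strands). It is linear in `c`. -/
def lamC (σ k c : ℕ) : ℕ := 2 ^ ((σ + k + 20) ^ 4) * (c + 1)

/-- The order that we need (`ρ` labels, `r` primes). -/
def needC (ρ r k c : ℕ) : ℕ := 100 * (r + 2) ^ 2 * 2 ^ r * (lamC ((ρ + 2) ^ 4 * k) k c + 4 * k)

/-- WORLD (chapter V and the tree): the windows and their flips. To be split (CTX, FLIP). -/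
def WorldCS : Prop :=
  ∀ (Q : Type) [Group Q] [Fintype Q] [DecidableEq Q] (B : Lb.{0, 0} Q) (a b : B.L) (eps : Q →* ℤˣ)
    (D : Subgroup Q) (z : Q) (k : ℕ) (H : HypC B a b eps D z k),
    3 ≤ (Subgroup.zpowers (B.q a * (B.q b)⁻¹)).relIndex eps.ker →
    ∀ (c W : ℕ), SinkU H.up D W → SepU H.up D c W → LevU H.up D W →
      lamC ((Nat.card B.L + 2) ^ 4 * k) k c ≤ W →
      ∃ (d cl : Q → Bool) (N : ℕ) (x s₁ s₂ : Fin N → Q) (F : Fin N → Finset Q) (t₀ rk : Fin N → ℕ),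
        World H.up (2 * k) W ((Nat.card B.L + 2) ^ 4 * k) ((Nat.card B.L + 2) ^ 20 * k ^ 8)
          (lamC ((Nat.card B.L + 2) ^ 4 * k) k c) d cl x s₁ s₂ F t₀ rk ∧
        ∀ (p : ℕ) (_ : Fact p.Prime) (V : Vd B (ZMod p)), 4 * k < p → V.chi z = 1 → KapV V a b eps →
          ∀ γ : Bool, (∃ y, cl y = γ) →
            FlipAt H.up (2 * k) (lamC ((Nat.card B.L + 2) ^ 4 * k) k c) d cl x s₁ s₂ F t₀ V γ

/-- HEART (from WORLD and HEART for any `Up`). -/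
def HeartCS : Prop :=
  ∀ (Q : Type) [Group Q] [Fintype Q] (B : Lb.{0, 0} Q) (a b : B.L) (eps : Q →* ℤˣ) (D : Subgroup Q) (z : Q) (k : ℕ)
    (H : HypC B a b eps D z k), 3 ≤ (Subgroup.zpowers (B.q a * (B.q b)⁻¹)).relIndex eps.ker →
    ∀ (c W : ℕ), SinkU H.up D W → SepU H.up D c W → LevU H.up D W →
      ∀ (m : ℕ) (V : Vd B (ZMod m)), Odd m → V.chi z = 1 →
        (∀ p ∈ m.primeFactors, 4 * k < p ∧ 2 * m.primeFactors.card < p) →
        (∀ p, ∀ hp : p ∈ m.primeFactors, KapV (V.map (red (Nat.dvd_of_mem_primeFactors hp))) a b eps) →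
        needC (Nat.card B.L) (2 * m.primeFactors.card) k c ≤ W →
        (Nat.card B.L + 2) ^ 40 * k ^ 20 * W ^ 2 < orderOf (z ^ k) →
        ∃ T : TourS B Bool, ∀ γ : Bool, (∃ x, T.cls x = γ) → IsUnit (T.vol V γ)

/-! ### Frontiers, the tree -/

/-- A frontier of `x`: all sheets at distance at most four, each once. -/
structure FrC {Q : Type} [Group Q] {B : Lb.{0, 0} Q} (U : Up B) (D : Subgroup Q) (k c W : ℕ) (x : Q)
    (F : Finset Q) : Prop where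
  inv : ∀ s ∈ F, ∀ δ ∈ D, s * δ ∈ F
  disj : ∀ s ∈ F, ∀ t : ℤ, |t| ≤ W → (U.U ^ t) s ∈ F → t = 0
  fx : x ∈ F
  fsh : ∀ l : List B.L, l.length ≤ 4 → ∃ o : ℤ, |o| ≤ c ∧ (U.U ^ o) (B.fin x l) ∈ F
  fsub : ∀ s ∈ F, ∃ l : List B.L, l.length ≤ 4 ∧ ∃ o : ℤ, ((U.U ^ o) (B.fin x l))⁻¹ * s ∈ D
  fcard : F.card ≤ (Nat.card B.L + 2) ^ 4 * k

/-- FRONT: frontiers exist. -/
def FrontCS : Prop :=
  ∀ (Q : Type) [Group Q] (B : Lb.{0, 0} Q) (a b : B.L) (eps : Q →* ℤˣ) (D : Subgroup Q) (z : Q) (k : ℕ)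
    (H : HypC B a b eps D z k) (c W : ℕ), SepU H.up D c W → 4 * c ≤ W → ∀ x : Q, ∃ F, FrC H.up D k c W x F

/-- NEAR: a frontier meets translates of few others only. -/
def NearCS : Prop :=
  ∀ (Q : Type) [Group Q] [Finite Q] (B : Lb.{0, 0} Q) (a b : B.L) (eps : Q →* ℤˣ) (D : Subgroup Q) (z : Q) (k : ℕ)
    (H : HypC B a b eps D z k) (c W : ℕ) (cl : Q → Bool) (N : ℕ) (x s₁ s₂ : Fin N → Q) (F : Fin N → Finset Q)
    (rk : Fin N → ℕ), (∀ i, FrC H.up D k c W (x i) (F i)) → (∀ i, s₁ i ∈ F i) → (∀ i, s₂ i ∈ F i) →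
    TreeK (lnU H.up) cl x s₁ s₂ rk →
      ∀ i, ∃ S : Finset (Fin N), S.card ≤ (Nat.card B.L + 2) ^ 20 * k ^ 8 ∧ ∀ i', i' ∉ S → ∀ y ∈ F i, ∀ y' ∈ F i',
        ∀ l l' : ℤ, (H.up.U ^ l) y ≠ (H.up.U ^ l') y'

/-- TREE (abstract): a connected graph with at least three vertices is cut into paths of length two; if the number of
vertices is even one vertex is left out (the class `true`). -/
def TreeAbsS : Prop :=
  ∀ (Λ : Type) [Finite Λ] (E : Λ → Λ → Prop), (∀ x y, E x y → E y x) →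
    (∀ ρ : Λ → Λ → Prop, Equivalence ρ → (∀ x y, E x y → ρ x y) → ∀ x y, ρ x y) → 3 ≤ Nat.card Λ →
    ∃ (d cl : Λ → Bool) (N : ℕ) (c l m : Fin N → Λ) (rk : Fin N → ℕ), 0 < N ∧ (∀ i, E (c i) (l i)) ∧
      (∀ i, E (c i) (m i)) ∧ (∀ i, d (l i) = !d (c i)) ∧ (∀ i, d (m i) = !d (c i)) ∧
      (∀ i, cl (c i) = false ∧ cl (l i) = false ∧ cl (m i) = false) ∧ (∀ y y', cl y = true → cl y' = true → y = y') ∧
      Odd (Nat.card {y // cl y = false}) ∧ TreeK id cl c l m rk ∧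
      (∀ y, cl y = false → ∃ i, y = c i ∨ y = l i ∨ y = m i)

/-- TREE for the trap (one rotation): every vertex `y` has exactly one `+` neighbour `p y` (an involution without fixed
point); the `-` edges `E` and the pairs connect everything. Paths with one `+` leaf and one `-` leaf; the pair of the
vertex `y₀` which is left out (`cl y₀ = true`) is a leaf of the graph of pairs. -/
def TreeTrapS : Prop :=
  ∀ (Λ : Type) [Finite Λ] (E : Λ → Λ → Prop) (p : Λ → Λ), (∀ x, p (p x) = x) → (∀ x, p x ≠ x) →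
    (∀ x y, E x y → E y x) →
    (∀ ρ : Λ → Λ → Prop, Equivalence ρ → (∀ x y, E x y → ρ x y) → (∀ x, ρ x (p x)) → ∀ x y, ρ x y) → 3 ≤ Nat.card Λ →
    ∃ (d cl : Λ → Bool) (N : ℕ) (c l m : Fin N → Λ) (rk : Fin N → ℕ), 0 < N ∧ (∀ i, l i = p (c i)) ∧
      (∀ i, E (c i) (m i)) ∧ (∀ i, d (l i) = !d (c i)) ∧ (∀ i, d (m i) = !d (c i)) ∧
      (∀ i, cl (c i) = false ∧ cl (l i) = false ∧ cl (m i) = false) ∧ (∃ y₀, ∀ y, cl y = true ↔ y = y₀) ∧
      Odd (Nat.card {y // cl y = false}) ∧ TreeK id cl c l m rk ∧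
      (∀ y, cl y = false → ∃ i, y = c i ∨ y = l i ∨ y = m i)

/-! ### Groups -/

/-- The subgroup `N₁`. -/
def nOne {G : Type*} [Group G] (eps : G →* ℤˣ) (A : Set G) (a b : G) : Subgroup G :=
  Subgroup.normalClosure ({t | t ∈ A ∧ eps t = 1} ∪ {x | ∃ g, eps g = 1 ∧ x = g * (a * b⁻¹) * g⁻¹ * (a * b⁻¹)⁻¹})

/-- The subgroup `C₁`. -/
def cOne {G : Type*} [Group G] (N : Subgroup G) (eps : G →* ℤˣ) (A : Set G) (a b : G) : Subgroup G :=
  N ⊓ nOne eps A a b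

/-- SCALE: the choice of `a`, `b` and of the scale. `Y` is the normal subgroup of order `P`. -/
def ScaleCS : Prop :=
  ∃ c₀ : ℕ, ∀ (Q : Type) [Group Q] [Finite Q] (B : Lb.{0, 0} Q) (k r P : ℕ) (Y : Subgroup Q) (eps : Q →* ℤˣ),
    Finite B.L → 0 < k → Subgroup.closure (Set.range B.q) = ⊤ → P.Prime → ¬ P ∣ k → Y.Normal → Nat.card Y = P →
    (∀ y ∈ Y, ∀ g : Q, g * y * g⁻¹ = y ^ ((eps g : ℤˣ) : ℤ)) → ¬ P ^ 2 ∣ Nat.card Q →
    (∀ s : B.L, ¬ P ∣ orderOf (B.q s)) → 2 ^ ((k + Nat.card B.L + r + 1) ^ c₀) ≤ P →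
    ∃ (a b : B.L) (ha : eps (B.q a) = -1) (hb : eps (B.q b) = -1), P ∣ orderOf (B.q a * (B.q b)⁻¹) ∧
      ∀ D : Subgroup Q, Nat.card D ∣ k → D.Normal → D ≤ eps.ker →
      ∃ c W : ℕ, SinkU (upC B a b eps ha hb) D W ∧ SepU (upC B a b eps ha hb) D c W ∧ LevU (upC B a b eps ha hb) D W ∧
        needC (Nat.card B.L) r k c ≤ W ∧ (Nat.card B.L + 2) ^ 40 * k ^ 20 * W ^ 2 < P

/-- DSTR: the quotient by `C₁`. -/
def DstrCS : Prop :=
  ∀ (G : Type) [Group G] [Finite G] (N C : Subgroup G) (eps : G →* ℤˣ) (k P : ℕ), GN N C eps k P →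
    ∀ (A : Set G) (hsym : ∀ x ∈ A, x⁻¹ ∈ A), Subgroup.closure A = ⊤ → (∀ g ∈ A, g ∈ N → g = 1) →
    (∀ g ∈ A, ¬ P ∣ orderOf g) → (∃ r ∈ A, eps r = 1 ∧ r ≠ 1) →
    ∀ a ∈ A, ∀ b ∈ A, eps a = -1 → eps b = -1 →
    (cOne N eps A a b).Normal ∧ ¬ P ∣ Nat.card (cOne N eps A a b) ∧
      ∀ (C₁ : Subgroup G) (_ : C₁.Normal), C₁ = cOne N eps A a b → ∀ (h1 : ∀ g ∈ A, g ∈ C₁ → g = 1),
      ∃ (D : Subgroup (G ⧸ C₁)) (z : G ⧸ C₁) (u : G) (eps' : G ⧸ C₁ →* ℤˣ),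
        (∀ g, eps' (QuotientGroup.mk' C₁ g) = eps g) ∧ u ∈ N ∧ QuotientGroup.mk' C₁ u = z ∧
        ∀ a' b' : (qLb C₁ A hsym h1).L, a'.1 = a → b'.1 = b → HypC (qLb C₁ A hsym h1) a' b' eps' D z k

/-- KAP (`s`, `z`, `chi`, `ν` come from HDATA for `C₁`). -/
def KapCS : Prop :=
  ∀ (G : Type) [Group G] [Finite G] (N C : Subgroup G) (eps : G →* ℤˣ) (k P : ℕ), GN N C eps k P →
    ∀ (A : Set G) (hsym : ∀ x ∈ A, x⁻¹ ∈ A), Subgroup.closure A = ⊤ →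
    ∀ (C₁ : Subgroup G) (_ : C₁.Normal) (h1 : ∀ g ∈ A, g ∈ C₁ → g = 1) (a b : (qLb C₁ A hsym h1).L),
    C₁ = cOne N eps A a.1 b.1 → eps a.1 = -1 → eps b.1 = -1 →
    ∀ (s : G ⧸ C₁ →* G) (z : G) (chi : G ⧸ C₁ →* ZMod (Nat.card C₁)) (ν : G → ZMod (Nat.card C₁)),
    (∀ q, QuotientGroup.mk' C₁ (s q) = q) → Subgroup.zpowers z = C₁ → orderOf z = Nat.card C₁ →
    (∀ q, s q * z * (s q)⁻¹ = z ^ (chi q).val) → (∀ g, g = z ^ (ν g).val * s (QuotientGroup.mk' C₁ g)) →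
    ∀ (eps' : G ⧸ C₁ →* ℤˣ), (∀ g, eps' (QuotientGroup.mk' C₁ g) = eps g) →
    ∀ (V : Vd (qLb C₁ A hsym h1) (ZMod (Nat.card C₁))), V.chi = chi → (∀ g, V.n g = ν g.1) →
    ∀ p, ∀ hp : p ∈ (Nat.card C₁).primeFactors, KapV (V.map (red (Nat.dvd_of_mem_primeFactors hp))) a b eps'

/-- SMALL: at most two lines. The numbers `c`, `W` may be chosen for every normal subgroup `E` of the kernel of `eps` whose
order divides `k`. -/
def SmallCS : Prop :=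
  ∀ (G : Type) [Group G] [Finite G] (N C : Subgroup G) (eps : G →* ℤˣ) (k P : ℕ) (A : Set G)
    (hsym : ∀ x ∈ A, x⁻¹ ∈ A) (C₁ : Subgroup G) (_ : C₁.Normal) (h1 : ∀ g ∈ A, g ∈ C₁ → g = 1)
    (a b : (qLb C₁ A hsym h1).L) (eps' : G ⧸ C₁ →* ℤˣ) (D : Subgroup (G ⧸ C₁)) (z : G ⧸ C₁) (u : G)
    (H : HypC (qLb C₁ A hsym h1) a b eps' D z k),
    GN N C eps k P → Subgroup.closure A = ⊤ → (∀ g ∈ A, g ∈ N → g = 1) → (∀ g ∈ A, ¬ P ∣ orderOf g) →
    C₁ = cOne N eps A a.1 b.1 → (∀ g, eps' (QuotientGroup.mk' C₁ g) = eps g) → u ∈ N →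
    QuotientGroup.mk' C₁ u = z →
    (Subgroup.zpowers ((qLb C₁ A hsym h1).q a * ((qLb C₁ A hsym h1).q b)⁻¹)).relIndex eps'.ker ≤ 2 →
    P ∣ orderOf z →
    (∀ E : Subgroup (G ⧸ C₁), Nat.card E ∣ k → E.Normal → E ≤ eps'.ker → ∃ c W : ℕ,
      SinkU H.up E W ∧ SepU H.up E c W ∧ LevU H.up E W ∧
        needC (Nat.card (qLb C₁ A hsym h1).L) (2 * (Nat.card C₁).primeFactors.card) k c ≤ W ∧
        (Nat.card (qLb C₁ A hsym h1).L + 2) ^ 40 * k ^ 20 * W ^ 2 < P) → Lst A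

/-- STR: the structural theorem (uses HEART, SCALE, KAP, DSTR, HDATA, FACTOR2, SMALL). -/
def StrCS : Prop :=
  ∃ c₀ : ℕ, ∀ (G : Type) [Group G] [Finite G] (N C : Subgroup G) (eps : G →* ℤˣ) (k P : ℕ) (A : Set G),
    GN N C eps k P → (∀ x ∈ A, x⁻¹ ∈ A) → Subgroup.closure A = ⊤ → (∀ g ∈ A, g ∈ N → g = 1) →
    (∀ g ∈ A, ¬ P ∣ orderOf g) → (∃ r ∈ A, eps r = 1 ∧ r ≠ 1) →
    2 ^ ((k + Nat.card A + (Nat.card G).primeFactorsList.length) ^ c₀) ≤ P → Lst A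

/-- MAIN (uses STR, `SQ3.mainAll`, `NC.nc`, SMALLGEN2; no induction): `A` contains an element `r ≠ 1` with
`eps r = 1`. -/
def MainCS : Prop :=
  ∃ c₀ : ℕ, ∀ (G : Type) [Group G] [Finite G] (N C : Subgroup G) (eps : G →* ℤˣ) (k P : ℕ) (A : Set G),
    GN N C eps k P → (∀ x ∈ A, x⁻¹ ∈ A) → Subgroup.closure A = ⊤ → (∃ r ∈ A, eps r = 1 ∧ r ≠ 1) →
    2 ^ ((k + (Nat.card G).primeFactorsList.length) ^ c₀) ≤ P → Lst A

end Pool.Agent.Lib.MP_688fd0_co.SQ4
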