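import Pool.Agent.Lib.MP_688fd0_co.SQ4.IfaceV
import Pool.Agent.Lib.MP_688fd0_co.SQ3.H98.KB
import Pool.Agent.Lib.MP_688fd0_co.SQ4.H98.FamQ

/-!
Type C1, WORLD: the rows about one path, the places and the algebra (helper62, plan P1), second part.
-/

set_option autoImplicit false

namespace Pool.Agent.Lib.MP_688fd0_co.SQ4.CV

open Pool.Agent.Lib.MP_688fd0_co.OSF Pool.Agent.Lib.MP_688fd0_co.SQ2 Pool.Agent.Lib.MP_688fd0_co.SQ3
open Pool.Agent.Lib.MP_688fd0_co.SQ4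
open SQ2.V (Puz)
open SQ2.V.Puz (St)

section defs

variable {Q : Type} [Group Q] (B : Lb.{0, 0} Q) (a b : B.L) (eps : Q →* ℤˣ) (D : Subgroup Q) (z : Q) (k : ℕ)

/-- The shifts of the cross rungs of `s`: all for a far reflection, none for a near one. -/
def MsC (s : B.L) : Set Q :=
  {m | m ∈ mZ B a b D z k ∧ ((B.q a)⁻¹ * B.q s ∈ D ∨ (B.q b)⁻¹ * B.q s ∈ D → m = 1)}

/-- Leaves: the strand `s` is joined with `x` (`eps x = 1`). -/
def Ed (N : ℕ) (x s : Q) : Prop :=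
  (∃ q ∈ SI B a b eps D z k, s = x * q) ∨
    ∃ (l : B.L) (n i : ℤ), EffL B a b eps D z k l ∧ |n| ≤ N ∧
      (rfC eps (B.q a) s * wC B a b ^ n = x * (wC B a b ^ i * sg B a l * wC B a b ^ (-i)) ∨
        x * wC B a b ^ n = rfC eps (B.q a) s * (wC B a b ^ i * sg B a l * wC B a b ^ (-i)))

/-- Edges between vertices of the kernel of `eps`, for the graph of the lines. -/
def EgC (x y : Q) : Prop :=
  (∃ q ∈ SI B a b eps D z k, y = x * q) ∨ ∃ (l : B.L) (i : ℤ), EffL B a b eps D z k l ∧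
    (y = x * (wC B a b ^ i * sg B a l * wC B a b ^ (-i)) ∨ x = y * (wC B a b ^ i * sg B a l * wC B a b ^ (-i)))

/-- The moves of the letter pair `p` at all levels. -/
def KT (p : B.L × B.L) : Subgroup Q :=
  Subgroup.closure {q | ∃ i : ℤ, q = wC B a b ^ i * tp B a b p * wC B a b ^ (-i)}

open Classical in
/-- The sum of the weights of the strands `v ∈ F` with `P v`. -/
noncomputable def sumOn {R : Type} [AddCommMonoid R] (F : Finset Q) (P : Q → Prop) (w : Q → R) : R :=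
  ∑ v ∈ F, if P v then w v else 0

end defs

section path

variable {Q : Type} [Group Q] [DecidableEq Q] {B : Lb.{0, 0} Q} {a b : B.L}
  {eps : Q →* ℤˣ} {D : Subgroup Q} {z : Q} {k : ℕ} {H : HypC B a b eps D z k} {F : Finset Q}

/-- The class `K` of rungs over the component `A` of the family `c` satisfies the hypotheses of the lemmas A and B. -/
def Pth.GoodC (T : Pth H F) (c : T.C) (A : {v // v ∈ F} → Prop) (K : T.Rc c → Prop) (R : Type) [Field R] : Prop :=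
  Nat.card {v // A v} ≤ 4 * k ∧
  ∃ (Pb : Puz {v // A v} {r : T.Rc c // A ((T.X c).x r)}) (E : SQ2.V.Sub T.P Pb)
    (_ : Fintype {r : T.Rc c // A ((T.X c).x r)}), (∀ v, E.iS v = v.1) ∧ (∀ r, E.iR r = ⟨c, r.1⟩) ∧
    Pb.HypK (fun r => K r.1) ∧ Pb.Wt R

/-- A reachable state whose cap is a rung of the family `c` over `A` in `K`, with weight `≠ 0` on `A`. -/
def Pth.StrtC (T : Pth H F) (c : T.C) (A : {v // v ∈ F} → Prop) (K : T.Rc c → Prop) {R : Type} [CommRing R]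
    (w : Q → R) : Prop :=
  Strt T.P T.f A (fun r => ∃ r' : T.Rc c, r = ⟨c, r'⟩ ∧ A ((T.X c).x r') ∧ K r') fun v => w v

/-- The hypotheses of the flips, and that there are none. -/
structure Cx (T : Pth H F) (x s₁ s₂ : Q) (r h W Λ : ℕ) {p : ℕ} (V : Vd B (ZMod p)) (w : Q → ZMod p) : Prop where
  ok : T.Ok x s₁ s₂ r h
  inv : ∀ s ∈ F, ∀ δ ∈ D, s * δ ∈ F
  dis : Dis H (fun v : {v // v ∈ F} => (v : Q)) W
  hΛ : lamV F.card r k h ≤ Λ
  hW : Λ ≤ W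
  prime : p.Prime
  big : 4 * k < p
  al : V.chi z = 1
  wl : LW H.up F (2 * k) w
  w₁ : w x + w s₁ = 0
  nofl : NoFl H F T.t₀ x s₁ s₂ Λ V w

/-- Every effective join of two sheets inside `F` has its family. -/
def Pth.FullM (T : Pth H F) (N h : ℕ) : Prop :=
  ∀ (v y : {v // v ∈ F}) (s : B.L) (n : ℤ), |n| ≤ N → EffL B a b eps D z k s →
    (rfC eps (B.q a) v * sg B a s)⁻¹ * (rfC eps (B.q a) y * wC B a b ^ n) ∈ D →
    ∃ c : T.C, FamX H _ _ (T.X c) s n (MsC B a b D z k s) (fun u => Sh D (v : Q) (u : Q))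
      (fun u => Sh D (y : Q) (u : Q)) (T.wd c) (T.In c) h

/-- A potential of the volumes of the words, over `A`. -/
def PotOn {F : Type} [CommRing F] (V : Vd B F) (a : B.L) (eps : Q →* ℤˣ) (u u' : F) {S R : Type} (g : S → Q)
    (x y : R → S) (wd : R → List B.L) (A : S → Prop) : Prop :=
  ∃ Φ : S → F, ∀ r, A (x r) → (evA V eps u u').vol (rfC eps (B.q a) (g (x r))) (wd r) = Φ (y r) - Φ (x r)

/-- `chi` is constant on `A`. -/
def ChiOn {F : Type} [CommRing F] (V : Vd B F) (a : B.L) (eps : Q →* ℤˣ) {S R : Type} (g : S → Q)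
    (x y : R → S) (A : S → Prop) : Prop :=
  ∀ r, A (x r) → V.chi (rfC eps (B.q a) (g (x r))) = V.chi (rfC eps (B.q a) (g (y r)))

end path

/-! ### Rows: flips of one path -/

/-- FLIPA: without flips the volumes of the words are exact. -/
def FlipAS : Prop :=
  ∀ (Q : Type) [Group Q] [DecidableEq Q] (B : Lb.{0, 0} Q) (a b : B.L) (eps : Q →* ℤˣ) (D : Subgroup Q) (z : Q) (k : ℕ)
    (H : HypC B a b eps D z k) (F : Finset Q) (T : Pth H F) (x s₁ s₂ : Q) (r h W Λ p : ℕ) (_ : Fact p.Prime)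
    (V : Vd B (ZMod p)) (w : Q → ZMod p), Cx T x s₁ s₂ r h W Λ V w →
    ∀ (u u' o : ZMod p), (∀ y, (evA V eps u u').e y (H.up.up y) = o) → GoodL a b D V →
    ∀ (c : T.C) (v₀ : {v // v ∈ F}) (A : {v // v ∈ F} → Prop), T.IsComp (fun c' => c' = c) v₀ A →
    ∀ K : T.Rc c → Prop, T.GoodC c A K (ZMod p) → T.StrtC c A K w →
      PotOn V a eps u u' (fun v : {v // v ∈ F} => (v : Q)) (T.X c).x (T.X c).y (T.wd c) A

/-- FLIPB: `w` acts as a translation `≠ 0`; without flips `chi` is constant. -/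
def FlipBS : Prop :=
  ∀ (Q : Type) [Group Q] [DecidableEq Q] (B : Lb.{0, 0} Q) (a b : B.L) (eps : Q →* ℤˣ) (D : Subgroup Q) (z : Q) (k : ℕ)
    (H : HypC B a b eps D z k) (F : Finset Q) (T : Pth H F) (x s₁ s₂ : Q) (r h W Λ p : ℕ) (_ : Fact p.Prime)
    (V : Vd B (ZMod p)) (w : Q → ZMod p), Cx T x s₁ s₂ r h W Λ V w →
    V.chi (wC B a b) = 1 → nuW V a b ≠ 0 →
    ∀ (c : T.C) (v₀ : {v // v ∈ F}) (A : {v // v ∈ F} → Prop), T.IsComp (fun c' => c' = c) v₀ A →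
    ∀ K : T.Rc c → Prop, T.GoodC c A K (ZMod p) → T.StrtC c A K w →
      ChiOn V a eps (fun v : {v // v ∈ F} => (v : Q)) (T.X c).x (T.X c).y A

/-- The weights at the state `stb`: the token of `s₂` goes up `s₁` and down `x`. -/
def wStb {Q R : Type} [DecidableEq Q] [Neg R] (x s₁ s₂ : Q) (w : Q → R) (v : Q) : R :=
  if v = x then - w s₂ else if v = s₁ then w s₂ else w v

/-- STK: without flips the sum of the weights over the coset of a bad letter is `0`. -/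
def StkS : Prop :=
  ∀ (Q : Type) [Group Q] [DecidableEq Q] (B : Lb.{0, 0} Q) (a b : B.L) (eps : Q →* ℤˣ) (D : Subgroup Q) (z : Q) (k : ℕ)
    (H : HypC B a b eps D z k) (F : Finset Q) (T : Pth H F) (x s₁ s₂ : Q) (r h W Λ p : ℕ) (_ : Fact p.Prime)
    (V : Vd B (ZMod p)) (w : Q → ZMod p), Cx T x s₁ s₂ r h W Λ V w →
    ∀ q : B.L × B.L, Nr1 B a b D q → V.chi (tp B a b q) = 1 → V.vol 1 (flat [q]) ≠ V.vol 1 (flat [(a, b)]) →
    ∀ v₁ ∈ F, sumOn F (fun v => (rfC eps (B.q a) v₁)⁻¹ * rfC eps (B.q a) v ∈ KT B a b q) (wStb x s₁ s₂ w) = 0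

/-- WIN: the base window. -/
def WinS : Prop :=
  ∀ (Q : Type) [Group Q] [DecidableEq Q] (B : Lb.{0, 0} Q) (a b : B.L) (eps : Q →* ℤˣ) (D : Subgroup Q) (z : Q) (k : ℕ)
    (H : HypC B a b eps D z k) (F : Finset Q) (T : Pth H F) (x s₁ s₂ : Q) (r h W Λ : ℕ), T.Ok x s₁ s₂ r h →
    (∀ s ∈ F, ∀ δ ∈ D, s * δ ∈ F) → Dis H (fun v : {v // v ∈ F} => (v : Q)) W → lamV F.card r k h ≤ Λ → Λ ≤ W →
    T.t₀ < 2 * k ∧ ∃ (X : TW B) (n : ℕ), n ≤ Λ ∧ FWin H.up (2 * k) F T.t₀ x s₁ s₂ X n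

/-! ### Rows: the puzzles -/

/-- COMPX: the component of a family with cross rungs. -/
def CompXS : Prop :=
  ∀ (Q : Type) [Group Q] [DecidableEq Q] (B : Lb.{0, 0} Q) (a b : B.L) (eps : Q →* ℤˣ) (D : Subgroup Q) (z : Q) (k : ℕ)
    (H : HypC B a b eps D z k) (F : Finset Q) (T : Pth H F), (∀ s ∈ F, ∀ δ ∈ D, s * δ ∈ F) →
    ∀ (c : T.C) (s : B.L) (n : ℤ) (M : Set Q) (v y : {v // v ∈ F}) (h : ℕ),
      FamX H _ _ (T.X c) s n M (fun u => Sh D (v : Q) (u : Q)) (fun u => Sh D (y : Q) (u : Q)) (T.wd c) (T.In c) h →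
      ∀ (v₀ : {v // v ∈ F}) (A : {v // v ∈ F} → Prop), T.IsComp (fun c' => c' = c) v₀ A →
        (Sh D (v : Q) (v₀ : Q) ∨ Sh D (y : Q) (v₀ : Q)) → ∀ (p : ℕ) (_ : Fact p.Prime), 4 * k < p →
          T.GoodC c A (fun _ => True) (ZMod p)

/-- RETX: a puzzle of families with cross rungs. -/
def RetXS : Prop :=
  ∀ (Q : Type) [Group Q] [DecidableEq Q] (B : Lb.{0, 0} Q) (a b : B.L) (eps : Q →* ℤˣ) (D : Subgroup Q) (z : Q) (k : ℕ)
    (H : HypC B a b eps D z k) (F : Finset Q) (T : Pth H F),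
    (∀ c, ∃ (s : B.L) (n : ℤ) (M : Set Q) (v y : {v // v ∈ F}) (h : ℕ),
      FamX H _ _ (T.X c) s n M (fun u => Sh D (v : Q) (u : Q)) (fun u => Sh D (y : Q) (u : Q)) (T.wd c) (T.In c) h) →
    T.P.RetK fun _ => True

/-- The bound for the number of all rungs. -/
def rT (σ ρ k : ℕ) : ℕ := 2 * (σ + 1) ^ 2 * (ρ + 1) * rB ρ k

/-- BIGX: the puzzle of a path, if there are effective reflections. -/
def BigXS : Prop :=
  ∀ (Q : Type) [Group Q] [DecidableEq Q] (B : Lb.{0, 0} Q) (a b : B.L) (eps : Q →* ℤˣ) (D : Subgroup Q) (z : Q) (k : ℕ)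
    (H : HypC B a b eps D z k) (c W : ℕ), SinkU H.up D W → SepU H.up D c W → LevU H.up D W →
    lamC ((Nat.card B.L + 2) ^ 4 * k) k c ≤ W → (∃ s, EffL B a b eps D z k s) →
    ∀ (x s₁ s₂ : Q) (F : Finset Q), eps x = 1 → FrC H.up D k c W x F → s₁ ∈ F → s₂ ∈ F → s₁ ≠ x → s₂ ≠ x → s₁ ≠ s₂ →
      Ed B a b eps D z k (c + 2) x s₁ → Ed B a b eps D z k (c + 2) x s₂ →
      ∃ T : Pth H F, T.Ok x s₁ s₂ (rT F.card (Nat.card B.L) k) (hB F.card k (c + 2)) ∧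
        T.FullM (c + 2) (hB F.card k (c + 2)) ∧
        ∀ c', ∃ (s : B.L) (n : ℤ) (v y : {v // v ∈ F}),
          FamX H _ _ (T.X c') s n (MsC B a b D z k s) (fun u => Sh D (v : Q) (u : Q)) (fun u => Sh D (y : Q) (u : Q))
            (T.wd c') (T.In c') (hB F.card k (c + 2))

/-- BIGI: the puzzle of a path, if there is no effective reflection. The strands are one sheet. -/
def BigIS : Prop :=
  ∀ (Q : Type) [Group Q] [DecidableEq Q] (B : Lb.{0, 0} Q) (a b : B.L) (eps : Q →* ℤˣ) (D : Subgroup Q) (z : Q) (k : ℕ)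
    (H : HypC B a b eps D z k) (c W : ℕ), SinkU H.up D W → SepU H.up D c W → LevU H.up D W →
    lamC ((Nat.card B.L + 2) ^ 4 * k) k c ≤ W → (∀ s, ¬ EffL B a b eps D z k s) →
    ∀ (x s₁ s₂ : Q) (F : Finset Q), eps x = 1 → FrC H.up D k c W x F →
      (∀ s ∈ F, ∃ l : List B.L, l.length ≤ 4 ∧ (B.fin x l)⁻¹ * s ∈ D) → s₁ ∈ F → s₂ ∈ F →
      s₁ ≠ x → s₂ ≠ x → s₁ ≠ s₂ → Ed B a b eps D z k (c + 2) x s₁ → Ed B a b eps D z k (c + 2) x s₂ →
      (∀ v ∈ F, x⁻¹ * v ∈ D) ∧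
      ∃ (T : Pth H F) (c' : T.C), T.Ok x s₁ s₂ (rT F.card (Nat.card B.L) k) (hB F.card k (c + 2)) ∧
        (∀ c'', c'' = c') ∧ (∀ v, T.Y c' v) ∧ (∀ r, T.In c' r) ∧
        ∀ (v₀ : {v // v ∈ F}) (A : {v // v ∈ F} → Prop), T.IsComp (fun c'' => c'' = c') v₀ A →
          ∀ r : T.Rc c', A ((T.X c').x r) → ∃ K : T.Rc c' → Prop, K r ∧
            ∀ (p : ℕ) (_ : Fact p.Prime), 4 * k < p → T.GoodC c' A K (ZMod p)

/-! ### Rows: places -/

/-- CTX: the paths of the tree. -/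
structure CtxV {Q : Type} [Group Q] [DecidableEq Q] {B : Lb.{0, 0} Q} {a b : B.L} {eps : Q →* ℤˣ} {D : Subgroup Q}
    {z : Q} {k : ℕ} (H : HypC B a b eps D z k) (c W : ℕ) (d cl : Q → Bool) {N : ℕ} (x s₁ s₂ : Fin N → Q)
    (F : Fin N → Finset Q) (rk : Fin N → ℕ) : Prop where
  pos : 0 < N
  d_line : ∀ y, d (H.up.U y) = d y
  c_line : ∀ y, cl (H.up.U y) = cl y
  d₁ : ∀ i, d (s₁ i) = !d (x i)
  d₂ : ∀ i, d (s₂ i) = !d (x i)
  c₀ : ∀ i, cl (x i) = false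
  c₁ : ∀ i, cl (s₁ i) = false
  c₂ : ∀ i, cl (s₂ i) = false
  tree : TreeK (lnU H.up) cl x s₁ s₂ rk
  one : ∀ y y', cl y = true → cl y' = true → lnU H.up y = lnU H.up y'
  odd : Odd (Nat.card {l : Quotient (Equiv.Perm.SameCycle.setoid H.up.U) // ∃ y, cl y = false ∧ lnU H.up y = l})
  cov : ∀ y, cl y = false → ∃ i, lnU H.up y = lnU H.up (x i) ∨ lnU H.up y = lnU H.up (s₁ i) ∨
    lnU H.up y = lnU H.up (s₂ i)
  ex : ∀ i, eps (x i) = 1
  fr : ∀ i, FrC H.up D k c W (x i) (F i)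
  fs0 : ∀ i, ∀ s ∈ F i, ∃ l : List B.L, l.length ≤ 4 ∧ (B.fin (x i) l)⁻¹ * s ∈ D
  f₁ : ∀ i, s₁ i ∈ F i
  f₂ : ∀ i, s₂ i ∈ F i
  e₁ : ∀ i, Ed B a b eps D z k (c + 2) (x i) (s₁ i)
  e₂ : ∀ i, Ed B a b eps D z k (c + 2) (x i) (s₂ i)
  near : ∀ i, ∃ S : Finset (Fin N), S.card ≤ (Nat.card B.L + 2) ^ 20 * k ^ 8 ∧ ∀ i', i' ∉ S → ∀ y ∈ F i,
    ∀ y' ∈ F i', ∀ l l' : ℤ, (H.up.U ^ l) y ≠ (H.up.U ^ l') y'
  /-- the line of the class `true` has a neighbour -/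
  adj : (∃ y, cl y = true) → ∃ y y', cl y = true ∧ cl y' = false ∧ eps y = 1 ∧ eps y' = 1 ∧ EgC B a b eps D z k y' y

/-- CTX. -/
def CtxVS : Prop :=
  ∀ (Q : Type) [Group Q] [DecidableEq Q] (B : Lb.{0, 0} Q) (a b : B.L) (eps : Q →* ℤˣ) (D : Subgroup Q) (z : Q) (k : ℕ)
    (H : HypC B a b eps D z k) (c W : ℕ), 3 ≤ (Subgroup.zpowers (B.q a * (B.q b)⁻¹)).relIndex eps.ker →
    SinkU H.up D W → SepU H.up D c W → LevU H.up D W → lamC ((Nat.card B.L + 2) ^ 4 * k) k c ≤ W →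
    ∃ (d cl : Q → Bool) (N : ℕ) (x s₁ s₂ : Fin N → Q) (F : Fin N → Finset Q) (rk : Fin N → ℕ),
      CtxV H c W d cl x s₁ s₂ F rk

/-- PLX: places for an effective reflection `s`. -/
def PlXS : Prop :=
  ∀ (Q : Type) [Group Q] [DecidableEq Q] (B : Lb.{0, 0} Q) (a b : B.L) (eps : Q →* ℤˣ) (D : Subgroup Q) (z : Q) (k : ℕ)
    (H : HypC B a b eps D z k) (c W : ℕ), SinkU H.up D W → SepU H.up D c W → LevU H.up D W →
    lamC ((Nat.card B.L + 2) ^ 4 * k) k c ≤ W →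
    ∀ (d cl : Q → Bool) (N : ℕ) (x s₁ s₂ : Fin N → Q) (F : Fin N → Finset Q) (rk : Fin N → ℕ)
      (_ : CtxV H c W d cl x s₁ s₂ F rk) (T : ∀ i, Pth H (F i)) (r h : ℕ),
      (∀ i, (T i).Ok (x i) (s₁ i) (s₂ i) r h) → (∀ i, (T i).P.RetK fun _ => True) → (∀ i, (T i).FullM (c + 2) h) →
      ∀ γ : Bool, (∃ y, cl y = γ) → ∀ (p : ℕ) (_ : Fact p.Prime), 4 * k < p →
      ∀ s, EffL B a b eps D z k s →
        ∃ (i : Fin N) (c' : (T i).C) (n : ℤ) (v y v₀ : {v // v ∈ F i}) (A : {v // v ∈ F i} → Prop),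
          FamX H _ _ ((T i).X c') s n (MsC B a b D z k s) (fun u => Sh D (v : Q) (u : Q))
            (fun u => Sh D (y : Q) (u : Q)) ((T i).wd c') ((T i).In c') h ∧
          (Sh D (v : Q) (v₀ : Q) ∨ Sh D (y : Q) (v₀ : Q)) ∧ (T i).IsComp (fun c'' => c'' = c') v₀ A ∧
          (T i).StrtC c' A (fun _ => True) (wcl cl d γ : Q → ZMod p)

/-- PLI: places without effective reflections. -/
def PlIS : Prop :=
  ∀ (Q : Type) [Group Q] [DecidableEq Q] (B : Lb.{0, 0} Q) (a b : B.L) (eps : Q →* ℤˣ) (D : Subgroup Q) (z : Q) (k : ℕ)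
    (H : HypC B a b eps D z k) (c W : ℕ), SinkU H.up D W → SepU H.up D c W → LevU H.up D W →
    lamC ((Nat.card B.L + 2) ^ 4 * k) k c ≤ W → (∀ s, ¬ EffL B a b eps D z k s) →
    ∀ (d cl : Q → Bool) (N : ℕ) (x s₁ s₂ : Fin N → Q) (F : Fin N → Finset Q) (rk : Fin N → ℕ)
      (_ : CtxV H c W d cl x s₁ s₂ F rk) (i : Fin N) (T : Pth H (F i)) (c' : T.C) (r h : ℕ),
      T.Ok (x i) (s₁ i) (s₂ i) r h → (∀ c'', c'' = c') → (∀ v, T.Y c' v) → (∀ r, T.In c' r) → (∀ v ∈ F i, (x i)⁻¹ * v ∈ D) →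
      ∀ γ : Bool, (∃ y, cl y = γ) → ∀ (p : ℕ) (_ : Fact p.Prime), 4 * k < p →
        ∃ (v₀ : {v // v ∈ F i}) (A : {v // v ∈ F i} → Prop) (r₀ : T.Rc c'), T.IsComp (fun c'' => c'' = c') v₀ A ∧
          A ((T.X c').x r₀) ∧ ∀ K : T.Rc c' → Prop, K r₀ → T.StrtC c' A K (wcl cl d γ : Q → ZMod p)

/-- PLK: places for STK. -/
def PlKS : Prop :=
  ∀ (Q : Type) [Group Q] [DecidableEq Q] (B : Lb.{0, 0} Q) (a b : B.L) (eps : Q →* ℤˣ) (D : Subgroup Q) (z : Q) (k : ℕ)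
    (H : HypC B a b eps D z k) (c W : ℕ), SinkU H.up D W → SepU H.up D c W → LevU H.up D W →
    lamC ((Nat.card B.L + 2) ^ 4 * k) k c ≤ W →
    ∀ (d cl : Q → Bool) (N : ℕ) (x s₁ s₂ : Fin N → Q) (F : Fin N → Finset Q) (rk : Fin N → ℕ),
      CtxV H c W d cl x s₁ s₂ F rk →
      ∀ γ : Bool, (∃ y, cl y = γ) → ∀ (p : ℕ) (_ : Fact p.Prime), 4 * k < p → ∀ q : B.L × B.L, Nr1 B a b D q →
        ∃ i, ∃ v₁ ∈ F i, sumOn (F i) (fun v => (rfC eps (B.q a) v₁)⁻¹ * rfC eps (B.q a) v ∈ KT B a b q)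
          (wcl cl d γ : Q → ZMod p) ≠ 0

/-! ### Rows: algebra -/

/-- GAUGE. -/
def GaugeS : Prop :=
  ∀ (Q : Type) [Group Q] (B : Lb.{0, 0} Q) (a b : B.L) (eps : Q →* ℤˣ) (D : Subgroup Q) (z : Q) (k : ℕ)
    (H : HypC B a b eps D z k) (p : ℕ) (_ : Fact p.Prime) (V : Vd B (ZMod p)), 4 * k < p → V.chi z = 1 →
    (V.chi (wC B a b) = 1 → nuW V a b ≠ 0 → ∀ q, eps q = 1 → V.chi q = 1) →
    ∃ u u' o : ZMod p, ∀ x, (evA V eps u u').e x (H.up.up x) = o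

section at_

variable {Q : Type} [Group Q] [DecidableEq Q] {B : Lb.{0, 0} Q} {a b : B.L}
  {eps : Q →* ℤˣ} {D : Subgroup Q} {z : Q} {k : ℕ} (H : HypC B a b eps D z k)

/-- `Ψ` holds for a closed part of a family with cross rungs of `s` (on the sheets of `v` and `y`). -/
def AtX (s : B.L) (Ψ : ∀ (S R : Type), (S → Q) → (R → S) → (R → S) → (R → List B.L) → (S → Prop) → Prop) : Prop :=
  ∃ (S : Type) (_ : Fintype S) (_ : DecidableEq S) (g : S → Q) (inj : Function.Injective g) (R : Type)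
    (_ : Fintype R) (X : ClsW H.up g inj (2 * k) R) (n : ℤ) (M : Set Q) (v y : S) (wd : R → List B.L)
    (In : R → Prop) (h : ℕ) (v₀ : S) (A : S → Prop), DCl D g ∧ Dis H g 1 ∧
      FamX H g inj X s n M (fun u => Sh D (g v) (g u)) (fun u => Sh D (g y) (g u)) wd In h ∧
      (Sh D (g v) (g v₀) ∨ Sh D (g y) (g v₀)) ∧ A v₀ ∧ (∀ r, A (X.x r) ↔ A (X.y r)) ∧ Ψ S R g X.x X.y wd A

/-- `Ψ` holds for a closed part of a family. -/
def AtI (Ψ : ∀ (S R : Type), (S → Q) → (R → S) → (R → S) → (R → List B.L) → (S → Prop) → Prop) : Prop :=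
  ∃ (S : Type) (_ : Fintype S) (_ : DecidableEq S) (g : S → Q) (inj : Function.Injective g) (R : Type)
    (_ : Fintype R) (X : ClsW H.up g inj (2 * k) R) (Y : S → Prop) (wd : R → List B.L)
    (In : R → Prop) (h : ℕ) (v₀ : S) (A : S → Prop), DCl D g ∧ Dis H g 1 ∧ FamB H g inj X Y wd In h ∧
      (∀ u, Sh D (g v₀) (g u) → Y u) ∧ A v₀ ∧ (∀ r, A (X.x r) ↔ A (X.y r)) ∧ Ψ S R g X.x X.y wd A

end at_

/-- CASEN: `chi w = 1` and `chi` is constant on the components. -/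
def CaseNS : Prop :=
  ∀ (Q : Type) [Group Q] [DecidableEq Q] (B : Lb.{0, 0} Q) (a b : B.L) (eps : Q →* ℤˣ) (D : Subgroup Q) (z : Q) (k : ℕ)
    (H : HypC B a b eps D z k) (p : ℕ) (_ : Fact p.Prime) (V : Vd B (ZMod p)), V.chi z = 1 →
    V.chi (wC B a b) = 1 →
    (∀ s, EffL B a b eps D z k s → AtX H s fun _ _ g x y _ A => ChiOn V a eps g x y A) →
    ((∀ s, ¬ EffL B a b eps D z k s) → AtI H fun _ _ g x y _ A => ChiOn V a eps g x y A) →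
    ∀ q, eps q = 1 → V.chi q = 1

/-- ALG: exact volumes and good letters exclude `KapV`. -/
def AlgS : Prop :=
  ∀ (Q : Type) [Group Q] [DecidableEq Q] (B : Lb.{0, 0} Q) (a b : B.L) (eps : Q →* ℤˣ) (D : Subgroup Q) (z : Q) (k : ℕ)
    (H : HypC B a b eps D z k) (p : ℕ) (_ : Fact p.Prime) (V : Vd B (ZMod p)), 4 * k < p → V.chi z = 1 →
    GoodL a b D V → ∀ u u' o : ZMod p, (∀ x, (evA V eps u u').e x (H.up.up x) = o) →
    (∀ s, EffL B a b eps D z k s → AtX H s fun _ _ g x y wd A => PotOn V a eps u u' g x y wd A) →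
    ((∀ s, ¬ EffL B a b eps D z k s) → AtI H fun _ _ g x y wd A => PotOn V a eps u u' g x y wd A) →
    ¬ KapV V a b eps

/-- NUM: the bounds. -/
def NumVS : Prop :=
  ∀ (σ ρ k c : ℕ), 0 < k → σ ≤ (ρ + 2) ^ 4 * k →
    lamV σ (rT σ ρ k) k (hB σ k (c + 2)) ≤ lamC ((ρ + 2) ^ 4 * k) k c ∧ 100 * (c + k + 1) ≤ lamC ((ρ + 2) ^ 4 * k) k c

end Pool.Agent.Lib.MP_688fd0_co.SQ4.CV
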